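import Pool.Agent.N637.SLX.Stm

/-! SLX/EQS: the number of the symmetric solutions of a linear system over the field with two elements. -/

set_option autoImplicit false

open scoped Classical

namespace Pool.Agent.N222.SLX.Eqs

open Finset Pool.Agent.N637.SLX
open Pool.Agent.N916.GB (ps sx pt)

/-! ### the character -/

/-- the character of the field with two elements -/
def ch (x : ZMod 2) : ℤ := if x = 0 then 1 else -1

theorem ch_zero : ch 0 = 1 := by simp [ch]

theorem ch_add (x y : ZMod 2) : ch (x + y) = ch x * ch y := by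
  revert x y
  unfold ch
  decide

theorem ch_sum {ι : Type} (s : Finset ι) (f : ι → ZMod 2) : ch (∑ i ∈ s, f i) = ∏ i ∈ s, ch (f i) := by
  induction s using Finset.induction_on with
  | empty => simp [ch_zero]
  | insert i s hi ih => rw [Finset.sum_insert hi, Finset.prod_insert hi, ch_add, ih]

theorem ch_le (x : ZMod 2) : ch x ≤ 1 := by
  unfold ch
  split_ifs <;> norm_num

theorem sum_ch_mul (c : ZMod 2) : ∑ s : ZMod 2, ch (s * c) = if c = 0 then 2 else 0 := by
  revert c
  unfold ch
  decide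

theorem fourier {ι : Type} [Fintype ι] [DecidableEq ι] (c : ι → ZMod 2) :
    ∑ σ : ι → ZMod 2, ch (∑ i, σ i * c i) = if ∀ i, c i = 0 then 2 ^ (Fintype.card ι) else 0 := by
  have h1 : ∑ σ : ι → ZMod 2, ch (∑ i, σ i * c i) = ∑ σ : ι → ZMod 2, ∏ i, ch (σ i * c i) := by
    apply Finset.sum_congr rfl
    intro σ _
    exact ch_sum _ _
  rw [h1]
  have h2 := Finset.prod_univ_sum (fun _ : ι => (Finset.univ : Finset (ZMod 2)))
    (fun i s => ch (s * c i))
  rw [Fintype.piFinset_univ] at h2
  rw [← h2]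
  simp only [sum_ch_mul]
  split_ifs with h
  · simp [h]
  · push Not at h
    obtain ⟨i, hi⟩ := h
    apply Finset.prod_eq_zero (Finset.mem_univ i)
    simp [hi]

/-! ### sums over pairs -/

section prs

variable {J : Type} [Fintype J] [LinearOrder J]

theorem mem_ps (e : J × J) : e ∈ ps J ↔ e.1 < e.2 := by
  simp [ps]

theorem sx_self (σ : ps J → ZMod 2) (k : J) : sx σ k k = 0 := by
  unfold sx
  rw [dif_neg (by simp [mem_ps]), dif_neg (by simp [mem_ps])]

theorem sx_lt (σ : ps J → ZMod 2) (e : ps J) : sx σ e.1.1 e.1.2 = σ e := by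
  unfold sx
  have h : (e.1.1, e.1.2) ∈ ps J := e.2
  rw [dif_pos h]

theorem sx_gt (σ : ps J → ZMod 2) (e : ps J) : sx σ e.1.2 e.1.1 = σ e := by
  unfold sx
  have h : (e.1.1, e.1.2) ∈ ps J := e.2
  have hlt := (mem_ps _).1 h
  have h' : (e.1.2, e.1.1) ∉ ps J := by
    rw [mem_ps]
    exact not_lt.2 (le_of_lt hlt)
  rw [dif_neg h', dif_pos h]

theorem sx_symm (σ : ps J → ZMod 2) (k l : J) : sx σ k l = sx σ l k := by
  rcases lt_trichotomy k l with h | h | h
  · have e : (k, l) ∈ ps J := (mem_ps _).2 h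
    exact (sx_lt σ ⟨(k, l), e⟩).trans (sx_gt σ ⟨(k, l), e⟩).symm
  · rw [h]
  · have e : (l, k) ∈ ps J := (mem_ps _).2 h
    exact (sx_gt σ ⟨(l, k), e⟩).trans (sx_lt σ ⟨(l, k), e⟩).symm

/-- a sum over all the ordered pairs -/
theorem sum_pairs {M : Type} [AddCommMonoid M] (G : J → J → M) (h0 : ∀ k, G k k = 0) :
    ∑ k, ∑ l, G k l = ∑ e : ps J, (G e.1.1 e.1.2 + G e.1.2 e.1.1) := by
  have h1 : ∑ k, ∑ l, G k l = ∑ e : J × J, G e.1 e.2 := by
    rw [← Finset.univ_product_univ, Finset.sum_product]
  rw [h1]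
  have h2 : ∑ e : ps J, (G e.1.1 e.1.2 + G e.1.2 e.1.1) =
      ∑ e ∈ ps J, (G e.1 e.2 + G e.2 e.1) :=
    Finset.sum_coe_sort (ps J) (fun e => G e.1 e.2 + G e.2 e.1)
  rw [h2, Finset.sum_add_distrib]
  rw [← Finset.sum_filter_add_sum_filter_not Finset.univ (fun e : J × J => e.1 < e.2)]
  congr 1
  rw [← Finset.sum_filter_add_sum_filter_not (Finset.univ.filter (fun e : J × J => ¬ e.1 < e.2))
    (fun e : J × J => e.2 < e.1)]
  have h3 : ∑ e ∈ (Finset.univ.filter (fun e : J × J => ¬ e.1 < e.2)).filter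
      (fun e : J × J => ¬ e.2 < e.1), G e.1 e.2 = 0 := by
    apply Finset.sum_eq_zero
    intro e he
    simp only [Finset.mem_filter, Finset.mem_univ, true_and, not_lt] at he
    have : e.1 = e.2 := le_antisymm he.2 he.1
    rw [this, h0]
  rw [h3, add_zero]
  refine Finset.sum_bij' (fun e _ => (e.2, e.1)) (fun e _ => (e.2, e.1)) ?_ ?_ ?_ ?_ ?_
  · intro e he
    simp only [Finset.mem_filter, Finset.mem_univ, true_and, not_lt] at he
    exact (mem_ps _).2 he.2
  · intro e he
    have := (mem_ps _).1 he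
    simp only [Finset.mem_filter, Finset.mem_univ, true_and, not_lt]
    exact ⟨this.le, this⟩
  · intro e _; rfl
  · intro e _; rfl
  · intro e _; rfl

end prs

theorem card_ps_fin (n : ℕ) : (ps (Fin n)).card = n * (n - 1) / 2 := by
  have h := sum_pairs (J := Fin n) (fun k l : Fin n => if k = l then 0 else 1) (by simp)
  have h1 : ∑ k : Fin n, ∑ l : Fin n, (if k = l then 0 else 1) = n * (n - 1) := by
    have : ∀ k : Fin n, ∑ l : Fin n, (if k = l then 0 else 1) = n - 1 := by
      intro k
      have h2 : ∑ l : Fin n, (if k = l then 0 else 1) =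
          (Finset.univ.filter (fun l : Fin n => ¬ k = l)).card := by
        rw [Finset.card_filter]
        apply Finset.sum_congr rfl
        intro l _
        by_cases hkl : k = l <;> simp [hkl]
      rw [h2, Finset.filter_not, Finset.card_sdiff_of_subset (Finset.filter_subset _ _)]
      simp [Finset.filter_eq]
    simp only [this, Finset.sum_const, Finset.card_univ, Fintype.card_fin, smul_eq_mul]
  have h2 : ∑ e : ps (Fin n), ((if e.1.1 = e.1.2 then 0 else 1) + (if e.1.2 = e.1.1 then 0 else 1)) =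
      2 * (ps (Fin n)).card := by
    have : ∀ e : ps (Fin n),
        ((if e.1.1 = e.1.2 then 0 else 1) + (if e.1.2 = e.1.1 then 0 else 1)) = 2 := by
      intro e
      have hlt := (mem_ps _).1 e.2
      rw [if_neg hlt.ne, if_neg hlt.ne']
    simp only [this, Finset.sum_const, smul_eq_mul]
    rw [Finset.card_univ, Fintype.card_coe, mul_comm]
  rw [h1, h2] at h
  omega

/-! ### the orthogonal complement of the image -/

section main

variable {J : Type} [Fintype J] [LinearOrder J] {n : ℕ}

theorem two0 : (2 : ZMod 2) = 0 := by decide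

/-- the relation between `k` and `l` -/
def RR (y : Fin n → J → ZMod 2) (μ : Fin n × J → ZMod 2) (k l : J) : ZMod 2 :=
  ∑ a, (μ (a, k) + μ (a, l)) * (y a k + y a l)

theorem RR_self (y : Fin n → J → ZMod 2) (μ : Fin n × J → ZMod 2) (k : J) : RR y μ k k = 0 := by
  unfold RR
  apply Finset.sum_eq_zero
  intro a _
  linear_combination (μ (a, k) + μ (a, k)) * y a k * two0

theorem RR_symm (y : Fin n → J → ZMod 2) (μ : Fin n × J → ZMod 2) (k l : J) :
    RR y μ k l = RR y μ l k := by
  unfold RR
  apply Finset.sum_congr rfl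
  intro a _
  ring

noncomputable def KK (y : Fin n → J → ZMod 2) : Finset (Fin n × J → ZMod 2) :=
  Finset.univ.filter (fun μ => ∀ e : ps J, RR y μ e.1.1 e.1.2 = 0)

theorem mem_KK (y : Fin n → J → ZMod 2) (μ : Fin n × J → ZMod 2) :
    μ ∈ KK y ↔ ∀ k l, RR y μ k l = 0 := by
  unfold KK
  rw [Finset.mem_filter]
  constructor
  · rintro ⟨-, h⟩ k l
    rcases lt_trichotomy k l with hkl | hkl | hkl
    · exact h ⟨(k, l), (mem_ps _).2 hkl⟩
    · rw [hkl]; exact RR_self y μ l
    · rw [RR_symm]; exact h ⟨(l, k), (mem_ps _).2 hkl⟩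
  · intro h
    exact ⟨Finset.mem_univ _, fun e => h _ _⟩

theorem adj (y : Fin n → J → ZMod 2) (μ : Fin n × J → ZMod 2) (σ : ps J → ZMod 2) :
    ∑ x : Fin n × J, μ x * ∑ l, (y x.1 l + y x.1 x.2) * sx σ l x.2 =
      ∑ e : ps J, σ e * RR y μ e.1.1 e.1.2 := by
  have h1 : ∑ x : Fin n × J, μ x * ∑ l, (y x.1 l + y x.1 x.2) * sx σ l x.2 =
      ∑ k, ∑ l, ∑ a, μ (a, k) * ((y a l + y a k) * sx σ l k) := by
    rw [← Finset.univ_product_univ, Finset.sum_product_right]
    apply Finset.sum_congr rfl
    intro k _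
    simp only [Finset.mul_sum]
    rw [Finset.sum_comm]
  rw [h1, sum_pairs]
  · apply Finset.sum_congr rfl
    intro e _
    unfold RR
    rw [← Finset.sum_add_distrib, Finset.mul_sum]
    apply Finset.sum_congr rfl
    intro a _
    rw [sx_gt, sx_lt]
    ring
  · intro k
    apply Finset.sum_eq_zero
    intro a _
    rw [sx_self]
    ring

theorem main_formula (y h : Fin n → J → ZMod 2) :
    (Sol y h : ℤ) * 2 ^ (n * Fintype.card J) =
      2 ^ (ps J).card * ∑ μ ∈ KK y, ch (∑ x : Fin n × J, μ x * h x.1 x.2) := by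
  have hcard : Fintype.card (Fin n × J) = n * Fintype.card J := by
    rw [Fintype.card_prod, Fintype.card_fin]
  have h1 : (Sol y h : ℤ) * 2 ^ (n * Fintype.card J) =
      ∑ σ : ps J → ZMod 2, ∑ μ : Fin n × J → ZMod 2,
        ch (∑ x : Fin n × J, μ x * (∑ l, (y x.1 l + y x.1 x.2) * sx σ l x.2 + h x.1 x.2)) := by
    unfold Sol
    rw [Finset.card_filter]
    push_cast
    rw [Finset.sum_mul]
    apply Finset.sum_congr rfl
    intro σ _
    rw [fourier (fun x : Fin n × J => ∑ l, (y x.1 l + y x.1 x.2) * sx σ l x.2 + h x.1 x.2), hcard]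
    have hiff : (∀ x : Fin n × J, ∑ l, (y x.1 l + y x.1 x.2) * sx σ l x.2 + h x.1 x.2 = 0) ↔
        ∀ a k, ∑ l, (y a l + y a k) * sx σ l k = h a k := by
      constructor
      · intro H a k
        have := H (a, k)
        exact CharTwo.add_eq_zero.1 this
      · rintro H ⟨a, k⟩
        exact CharTwo.add_eq_zero.2 (H a k)
    rw [if_congr hiff rfl rfl]
    split_ifs <;> simp
  rw [h1, Finset.sum_comm]
  have h2 : ∀ μ : Fin n × J → ZMod 2, ∑ σ : ps J → ZMod 2,
      ch (∑ x : Fin n × J, μ x * (∑ l, (y x.1 l + y x.1 x.2) * sx σ l x.2 + h x.1 x.2)) =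
      (if ∀ e : ps J, RR y μ e.1.1 e.1.2 = 0 then
        2 ^ (ps J).card * ch (∑ x : Fin n × J, μ x * h x.1 x.2) else 0) := by
    intro μ
    have h3 : ∀ σ : ps J → ZMod 2,
        ch (∑ x : Fin n × J, μ x * (∑ l, (y x.1 l + y x.1 x.2) * sx σ l x.2 + h x.1 x.2)) =
        ch (∑ e : ps J, σ e * RR y μ e.1.1 e.1.2) * ch (∑ x : Fin n × J, μ x * h x.1 x.2) := by
      intro σ
      rw [← adj, ← ch_add, ← Finset.sum_add_distrib]
      congr 1
      apply Finset.sum_congr rfl
      intro x _
      ring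
    simp only [h3]
    rw [← Finset.sum_mul, fourier (fun e : ps J => RR y μ e.1.1 e.1.2), Fintype.card_coe]
    split_ifs <;> simp
  simp only [h2]
  rw [← Finset.sum_filter, Finset.mul_sum]
  rfl

theorem part1 (y h : Fin n → J → ZMod 2) (hC : ¬ Cmp y h) : Sol y h = 0 := by
  unfold Sol
  rw [Finset.card_eq_zero, Finset.filter_eq_empty_iff]
  intro σ _ hσ
  apply hC
  refine ⟨fun a => ?_, fun a b => ?_⟩
  · have h1 : ∑ k, h a k = ∑ k, ∑ l, (y a l + y a k) * sx σ l k :=
      Finset.sum_congr rfl fun k _ => (hσ a k).symm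
    rw [h1, sum_pairs]
    · apply Finset.sum_eq_zero
      intro e _
      rw [sx_lt, sx_gt]
      linear_combination (y a e.1.1 + y a e.1.2) * σ e * two0
    · intro k
      rw [sx_self]
      ring
  · have h1 : ∑ k, (y a k * h b k + y b k * h a k) =
        ∑ k, ∑ l, (y a k * (y b l + y b k) + y b k * (y a l + y a k)) * sx σ l k := by
      apply Finset.sum_congr rfl
      intro k _
      rw [← hσ a k, ← hσ b k, Finset.mul_sum, Finset.mul_sum, ← Finset.sum_add_distrib]
      apply Finset.sum_congr rfl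
      intro l _
      ring
    rw [h1, sum_pairs]
    · apply Finset.sum_eq_zero
      intro e _
      rw [sx_lt, sx_gt]
      linear_combination (y a e.1.1 * y b e.1.2 + y b e.1.1 * y a e.1.2 + y a e.1.1 * y b e.1.1 +
        y a e.1.2 * y b e.1.2) * σ e * two0
    · intro k
      rw [sx_self]
      ring

/-- the parametrisation of the complement -/
noncomputable def P (y : Fin n → J → ZMod 2) (t : (ps (Fin n) → ZMod 2) × (Fin n → ZMod 2)) :
    Fin n × J → ZMod 2 := fun x => ∑ b, sx t.1 x.1 b * y b x.2 + t.2 x.1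

theorem P_inj (y : Fin n → J → ZMod 2) (hy : Srj y) : Function.Injective (P y) := by
  rintro ⟨τ, c⟩ ⟨τ', c'⟩ h
  obtain ⟨k0, hk0⟩ := hy (fun _ => 0)
  have hc : c = c' := by
    funext a
    have := congrFun h (a, k0)
    simpa [P, hk0] using this
  subst hc
  have hs : ∀ a b, sx τ a b = sx τ' a b := by
    intro a b
    obtain ⟨k, hk⟩ := hy (Pi.single b 1)
    have := congrFun h (a, k)
    simp only [P, hk, add_left_inj] at this
    simpa [Pi.single_apply] using this
  have : τ = τ' := by
    funext e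
    have := hs e.1.1 e.1.2
    rwa [sx_lt, sx_lt] at this
  rw [this]

theorem KK_eq (y : Fin n → J → ZMod 2) (hy : Srj y) : KK y = Finset.univ.image (P y) := by
  ext μ
  rw [mem_KK, Finset.mem_image]
  constructor
  · intro hμ
    obtain ⟨k0, hk0⟩ := hy (fun _ => 0)
    choose kk hkk using fun b : Fin n => hy (Pi.single b 1)
    set c : Fin n → ZMod 2 := fun a => μ (a, k0) with hc
    set ν : Fin n → J → ZMod 2 := fun a k => μ (a, k) + c a with hν
    have hst : ∀ k, ∑ a, ν a k * y a k = 0 := by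
      intro k
      have := hμ k k0
      unfold RR at this
      simp only [hk0, add_zero] at this
      exact this
    have hss : ∀ k l, ∑ a, ν a k * y a l = ∑ a, ν a l * y a k := by
      intro k l
      have h1 := hμ k l
      unfold RR at h1
      have h2 : ∑ a, (μ (a, k) + μ (a, l)) * (y a k + y a l) =
          ∑ a, ν a k * y a k + ∑ a, ν a l * y a l + (∑ a, ν a k * y a l + ∑ a, ν a l * y a k) := by
        rw [← Finset.sum_add_distrib, ← Finset.sum_add_distrib, ← Finset.sum_add_distrib]
        apply Finset.sum_congr rfl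
        intro a _
        simp only [hν]
        linear_combination (- c a * y a k - c a * y a l) * two0
      rw [h2, hst, hst, zero_add, zero_add] at h1
      exact CharTwo.add_eq_zero.1 h1
    have hB : ∀ k b, ∑ a, ν a k * y a (kk b) = ν b k := by
      intro k b
      simp only [hkk, Pi.single_apply]
      simp
    have hS : ∀ a b, ν a (kk b) = ν b (kk a) := by
      intro a b
      rw [← hB (kk b) a, ← hB (kk a) b, hss]
    have hD : ∀ a, ν a (kk a) = 0 := by
      intro a
      rw [← hB (kk a) a, hst]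
    have hsx : ∀ a b, sx (fun e : ps (Fin n) => ν e.1.1 (kk e.1.2)) a b = ν a (kk b) := by
      intro a b
      rcases lt_trichotomy a b with hab | hab | hab
      · exact sx_lt _ ⟨(a, b), (mem_ps _).2 hab⟩
      · rw [hab, sx_self, hD]
      · rw [hS]
        exact sx_gt _ ⟨(b, a), (mem_ps _).2 hab⟩
    refine ⟨(fun e : ps (Fin n) => ν e.1.1 (kk e.1.2), c), Finset.mem_univ _, ?_⟩
    funext x
    obtain ⟨a, k⟩ := x
    simp only [P, hsx]
    have h3 : ∑ b, ν a (kk b) * y b k = ν a k := by
      rw [← hB k a, hss]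
      apply Finset.sum_congr rfl
      intro b _
      rw [hS]
    rw [h3]
    simp only [hν]
    linear_combination c a * two0
  · rintro ⟨⟨τ, c⟩, -, rfl⟩ k l
    unfold RR P
    have h1 : ∀ a, (∑ b, sx τ a b * y b k + c a + (∑ b, sx τ a b * y b l + c a)) *
        (y a k + y a l) = ∑ b, sx τ a b * ((y a k + y a l) * (y b k + y b l)) := by
      intro a
      have : ∑ b, sx τ a b * ((y a k + y a l) * (y b k + y b l)) =
          (∑ b, sx τ a b * y b k + ∑ b, sx τ a b * y b l) * (y a k + y a l) := by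
        rw [← Finset.sum_add_distrib, Finset.sum_mul]
        apply Finset.sum_congr rfl
        intro b _
        ring
      rw [this]
      linear_combination c a * (y a k + y a l) * two0
    simp only [h1]
    rw [sum_pairs]
    · apply Finset.sum_eq_zero
      intro e _
      rw [sx_lt, sx_gt]
      linear_combination τ e * ((y e.1.1 k + y e.1.1 l) * (y e.1.2 k + y e.1.2 l)) * two0
    · intro a
      rw [sx_self]
      ring

theorem card_KK (y : Fin n → J → ZMod 2) (hy : Srj y) : (KK y).card = 2 ^ (n + n * (n - 1) / 2) := by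
  rw [KK_eq y hy, Finset.card_image_of_injective _ (P_inj y hy), Finset.card_univ,
    Fintype.card_prod, Fintype.card_fun, Fintype.card_fun, Fintype.card_coe, card_ps_fin, ZMod.card,
    Fintype.card_fin]
  ring

theorem orth (y h : Fin n → J → ZMod 2) (hC : Cmp y h)
    (t : (ps (Fin n) → ZMod 2) × (Fin n → ZMod 2)) :
    ∑ x : Fin n × J, P y t x * h x.1 x.2 = 0 := by
  obtain ⟨τ, c⟩ := t
  have h1 : ∑ x : Fin n × J, P y (τ, c) x * h x.1 x.2 =
      ∑ a, ∑ b, sx τ a b * ∑ k, y b k * h a k + ∑ a, c a * ∑ k, h a k := by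
    rw [← Finset.univ_product_univ, Finset.sum_product, ← Finset.sum_add_distrib]
    apply Finset.sum_congr rfl
    intro a _
    simp only [P, add_mul, Finset.sum_add_distrib, Finset.sum_mul, Finset.mul_sum]
    rw [Finset.sum_comm]
    congr 1
    apply Finset.sum_congr rfl
    intro b _
    apply Finset.sum_congr rfl
    intro k _
    ring
  rw [h1]
  have h2 : ∑ a, c a * ∑ k, h a k = 0 := by
    apply Finset.sum_eq_zero
    intro a _
    rw [hC.1 a, mul_zero]
  rw [h2, add_zero, sum_pairs]
  · apply Finset.sum_eq_zero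
    intro e _
    rw [sx_lt, sx_gt, ← mul_add]
    have := hC.2 e.1.2 e.1.1
    rw [Finset.sum_add_distrib] at this
    rw [this, mul_zero]
  · intro a
    rw [sx_self, zero_mul]

theorem part2 (y h : Fin n → J → ZMod 2) (hy : Srj y) (hC : Cmp y h) :
    Sol y h * 2 ^ (n * Fintype.card J) = 2 ^ ((ps J).card + n + n * (n - 1) / 2) := by
  have h1 := main_formula y h
  have h2 : ∑ μ ∈ KK y, ch (∑ x : Fin n × J, μ x * h x.1 x.2) = ((KK y).card : ℤ) := by
    rw [Finset.card_eq_sum_ones]
    push_cast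
    apply Finset.sum_congr rfl
    intro μ hμ
    rw [KK_eq y hy] at hμ
    obtain ⟨t, -, rfl⟩ := Finset.mem_image.1 hμ
    rw [orth y h hC, ch_zero]
  rw [h2, card_KK y hy] at h1
  have h3 : ((Sol y h * 2 ^ (n * Fintype.card J) : ℕ) : ℤ) =
      ((2 ^ ((ps J).card + n + n * (n - 1) / 2) : ℕ) : ℤ) := by
    push_cast
    rw [h1]
    push_cast
    ring
  exact_mod_cast h3

theorem part3 (y h : Fin n → J → ZMod 2) (hy : Aff y) :
    Sol y h * 2 ^ (n * Fintype.card J) ≤ 2 ^ ((ps J).card + n * 2 ^ n) := by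
  have h1 := main_formula y h
  have h2 : ∑ μ ∈ KK y, ch (∑ x : Fin n × J, μ x * h x.1 x.2) ≤ ((KK y).card : ℤ) := by
    rw [Finset.card_eq_sum_ones]
    push_cast
    exact Finset.sum_le_sum fun μ _ => ch_le _
  have h3 : (KK y).card ≤ 2 ^ (n * 2 ^ n) := by
    have hsub : KK y ⊆ (Finset.univ : Finset (Fin n × (Fin n → ZMod 2) → ZMod 2)).image
        (fun f => fun x : Fin n × J => f (x.1, fun b => y b x.2)) := by
      intro μ hμ
      rw [mem_KK] at hμ
      rw [Finset.mem_image]
      refine ⟨fun z => if H : ∃ k, (fun b => y b k) = z.2 then μ (z.1, H.choose) else 0,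
        Finset.mem_univ _, ?_⟩
      funext x
      obtain ⟨a, k⟩ := x
      have H : ∃ k', (fun b => y b k') = (fun b => y b k) := ⟨k, rfl⟩
      simp only
      rw [dif_pos H]
      set k' := H.choose with hk'
      have hkk : ∀ b, y b k' = y b k := fun b => congrFun H.choose_spec b
      have hd : ∀ b, μ (b, k') + μ (b, k) = 0 := by
        refine hy (fun b => μ (b, k') + μ (b, k)) (∑ b, (μ (b, k') + μ (b, k)) * y b k) ?_
        intro l
        have e1 := hμ k' l
        have e2 := hμ k l
        unfold RR at e1 e2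
        have e3 : ∑ b, (μ (b, k') + μ (b, k)) * y b l =
            ∑ b, (μ (b, k') + μ (b, k)) * y b k + (∑ b, (μ (b, k') + μ (b, l)) * (y b k' + y b l) +
              ∑ b, (μ (b, k) + μ (b, l)) * (y b k + y b l)) := by
          rw [← Finset.sum_add_distrib, ← Finset.sum_add_distrib]
          apply Finset.sum_congr rfl
          intro b _
          rw [hkk b]
          linear_combination (- (μ (b, k') + μ (b, k)) * y b k - μ (b, l) * (y b k + y b l)) * two0
        rw [e3, e1, e2]
        ring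
      exact CharTwo.add_eq_zero.1 (hd a)
    refine (Finset.card_le_card hsub).trans (Finset.card_image_le.trans ?_)
    rw [Finset.card_univ, Fintype.card_fun, Fintype.card_prod, Fintype.card_fun, ZMod.card,
      Fintype.card_fin]
  have h4 : ((Sol y h * 2 ^ (n * Fintype.card J) : ℕ) : ℤ) ≤
      ((2 ^ ((ps J).card + n * 2 ^ n) : ℕ) : ℤ) := by
    push_cast
    rw [h1, pow_add]
    apply mul_le_mul_of_nonneg_left _ (by positivity)
    refine h2.trans ?_
    exact_mod_cast h3
  exact_mod_cast h4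

end main

theorem t_EQS : S_EQS := fun _ _ _ _ y h =>
  ⟨part1 y h, fun hy hC => part2 y h hy hC, fun hy => part3 y h hy⟩

end Pool.Agent.N222.SLX.Eqs
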